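import Mathlib
import Pool.Agent.TH259.OM.Main

set_option autoImplicit false

/-!
# Multiplication in the complex algebra `C(X)` is uniformly open when `dim X ≤ 1`

Let `X` be a compact Hausdorff space of Lebesgue covering dimension at most one. For all continuous
`a, b : X → ℂ` and `ε > 0`, every continuous `h` with `‖h - a b‖ < ε² / 256` is a product `h = f g`
with `‖f - a‖ < ε` and `‖g - b‖ < ε`.

Outline. A selection lemma (file `Pool/Agent/TH259/OM/Sel.lean`): over a compact Hausdorff space of
dimension at most one, every open relation `O ⊆ X × Y` with path connected fibres has a continuous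
section. It gives first that zero free functions are dense. If `h` has no zeros, then the possible
values of `f x` form the set of all `w ≠ 0` with `|w - a x| < ε` and `|h x / w - b x| < ε`; it is the
intersection of two open round discs of the Riemann sphere, so it is path connected
(file `Pool/Agent/TH259/OM/Geo.lean`), and the selection lemma gives `f`. Successive approximation
removes the assumption on `h`.
-/

namespace Pool.Agent.Results.MP_64150f_an.UniformlyOpen

open Set Metric
open scoped Pointwise
open Pool.Agent.TH259.OM

universe u

/-- Let `X` be a compact Hausdorff space of covering dimension at most one. Then for every `ε > 0`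
and all `a, b` in the complex Banach algebra `C(X)`, with `δ = ε ^ 2 / 256`,
`B(a b, δ) ⊆ B(a, ε) · B(b, ε)`. -/
theorem result (X : Type u) [TopologicalSpace X] [CompactSpace X] [T2Space X]
    (hX : CoveringDimLE X 1) (ε : ℝ) (hε : 0 < ε) (a b : C(X, ℂ)) :
    ball (a * b) (ε ^ 2 / 256) ⊆ ball a ε * ball b ε := by
  intro h hh
  rw [mem_ball_iff_norm] at hh
  obtain ⟨f, g, h1, h2, h3⟩ := factor hX a b h hε hh
  exact mem_mul.2 ⟨f, mem_ball_iff_norm.2 h1, g, mem_ball_iff_norm.2 h2, h3⟩

end Pool.Agent.Results.MP_64150f_an.UniformlyOpen
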